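import Pool.Agent.helper16.SC.COR

/-!
# sp: the injection (EXI)
-/

namespace Pool.Agent.helper82.SC

open Relation

theorem EXI_csymm {D : Dom} {ψ : Dart → ZMod 2} {x y : Dart} (h : D.Cn ψ x y) : D.Cn ψ y x :=
  OR_csymm (K := {f | D.FU f}) h

theorem EXI_one {D : Dom} {ψ : Dart → ZMod 2} {x y : Dart} (hx : ψ x = 1) (h : D.Cn ψ x y) :
    ψ y = 1 :=
  OR_one (K := {f | D.FU f}) hx h

/-- The two darts could be linked. -/
def EXI_pot (D : Dom) (x y : Dart) : Prop :=
  (D.FU x.1 ∧ x.1 = y.1 ∧ x ≠ y) ∨ ((D.FU x.1 ∨ D.FU y.1) ∧ y = star x)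

theorem EXI_key (hCO : CO_stmt) (hEX : EX_stmt) (D : Dom) (z : Dart) (j : Fin 3) (hz : D.FU z.1)
    (ψ φ : Dart → ZMod 2) (hψ : ψ ∈ D.Conf z) (hφ : φ ∈ D.Conf z) (hJ : D.Jn φ z j)
    (hcls : {x | D.Cn ψ (star (D.a (j + 1))) x} = {x | D.Cn φ (star (D.a (j + 1))) x})
    (χ : Dart → ZMod 2) (hχ1 : ∀ x, D.FU x.1 → D.Cn φ (zp φ z) x → χ x = 1)
    (hχ0 : ∀ x, ¬ (D.FU x.1 ∧ D.Cn φ (zp φ z) x) → χ x = 0) :
    (fun x => ψ x + χ x) ∈ D.Conf (D.a j) ∧ D.Jn (fun x => ψ x + χ x) (D.a j) j ∧
      {x | D.Cn (fun x => ψ x + χ x) (star (D.a (j + 1))) x} =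
        {x | D.Cn φ (star (D.a (j + 1))) x} := by
  classical
  obtain ⟨hfin, hc1, hc2, hainj⟩ := hCO D
  obtain ⟨j', hj1, hj2, -, hj4⟩ := hEX D z hz φ hφ
  have hjj : j = j' := hj2 j hJ
  subst hjj
  have h11 : (1 : ZMod 2) + 1 = 0 := by decide
  have h01 : (0 : ZMod 2) ≠ 1 := by decide
  -- the starting point is a wall
  have hzp1 : φ (zp φ z) = 1 := by
    unfold zp
    by_cases h : φ z = 1
    · rw [if_pos h, h]
    · rw [if_neg h, hφ.2.1 z, OR_zmod _ h]
      simp only [true_or, if_true, zero_add]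
  have hρ1 : ∀ x, D.Cn φ (zp φ z) x → φ x = 1 := fun x hx => EXI_one hzp1 hx
  have hlink : ∀ x y, φ x = 1 → φ y = 1 → EXI_pot D x y →
      (D.Cn φ (zp φ z) x ↔ D.Cn φ (zp φ z) y) := by
    intro x y hx hy hp
    have hl : D.Link φ x y := ⟨hx, hy, hp⟩
    have h1 : D.Cn φ x y := ReflTransGen.single hl
    exact ⟨fun h => h.trans h1, fun h => h.trans (EXI_csymm h1)⟩
  -- evenness
  have hev : ∀ f, D.FU f → χ (f, 0) + χ (f, 1) + χ (f, 2) = 0 := by
    intro f hf
    by_cases hex : ∃ e, D.Cn φ (zp φ z) (f, e)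
    · obtain ⟨e, he⟩ := hex
      have h1 : ∀ e', χ (f, e') = φ (f, e') := by
        intro e'
        by_cases h : φ (f, e') = 1
        · rw [h]
          apply hχ1 (f, e') hf
          by_cases hee : (f, e) = (f, e')
          · rw [← hee]; exact he
          · exact (hlink (f, e) (f, e') (hρ1 _ he) h (Or.inl ⟨hf, rfl, hee⟩)).1 he
        · rw [OR_zmod _ h]
          apply hχ0
          rintro ⟨-, h2⟩
          exact h (hρ1 _ h2)
      rw [h1, h1, h1]
      exact hφ.1 f hf
    · have h1 : ∀ e', χ (f, e') = 0 := fun e' => hχ0 _ (fun h => hex ⟨e', h.2⟩)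
      rw [h1, h1, h1]
      decide
  -- the boundary case of the symmetry
  have hbd : ∀ x : Dart, D.FU x.1 → ¬ D.FU (star x).1 →
      χ (star x) + χ x = (if x = z ∨ x = star z then 1 else 0) +
        (if x = D.a j ∨ x = star (D.a j) then 1 else 0) := by
    intro x hx hsx
    have e1 : χ (star x) = 0 := hχ0 _ (fun h => hsx h.1)
    have e2 : x ≠ star z := by
      intro h
      apply hsx
      rw [h, star_star]; exact hz
    have e3 : ∀ k, x ≠ star (D.a k) := by
      intro k h
      apply (hc1 k).2.1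
      rw [← h]; exact hx
    have e4 : φ (star x) = φ x + if x = z ∨ x = star z then 1 else 0 := hφ.2.1 x
    have e5 : φ (star x) = D.wall (star x) := hφ.2.2 _ hsx
    rw [e1, zero_add]
    by_cases hw : φ (star x) = 1
    · obtain ⟨k, hk⟩ := hc2 (star x) hsx (by rw [star_star]; exact hx) (by rw [← e5]; exact hw)
      have hxk : x = D.a k := by
        have := congrArg star hk
        rwa [star_star, star_star] at this
      by_cases hxz : x = z
      · -- the source at a corner
        rw [hw, if_pos (Or.inl hxz)] at e4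
        have hz0 : φ x = 0 := (by decide : ∀ a : ZMod 2, 1 = a + 1 → a = 0) _ e4
        have hχx : χ x = 0 := hχ0 _ (fun h => h01 (by rw [← hz0]; exact hρ1 _ h.2))
        have hkj : k = j := by
          apply hj2
          unfold Dom.Jn zp
          rw [← hxz, hz0, if_neg h01, hk]
          exact ReflTransGen.refl
        rw [hχx, if_pos (Or.inl hxz), if_pos (Or.inl (by rw [hxk, hkj])), h11]
      · have hn : ¬ (x = z ∨ x = star z) := by
          rintro (h | h)
          · exact hxz h
          · exact e2 h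
        rw [hw, if_neg hn, add_zero] at e4
        rw [if_neg hn, zero_add]
        have hl := hlink x (star x) e4.symm hw (Or.inr ⟨Or.inl hx, rfl⟩)
        by_cases hkj : k = j
        · rw [if_pos (Or.inl (by rw [hxk, hkj]))]
          apply hχ1 _ hx
          rw [hl, hk, hkj]
          exact hJ
        · have hn2 : ¬ (x = D.a j ∨ x = star (D.a j)) := by
            rintro (h | h)
            · exact hkj (hainj (by rw [← hxk, ← h]))
            · exact e3 j h
          rw [if_neg hn2]
          apply hχ0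
          rintro ⟨-, h⟩
          rw [hl, hk] at h
          exact (hj4 k hkj).2 (EXI_csymm h)
    · have hw0 : φ (star x) = 0 := OR_zmod _ hw
      have hna : ¬ (x = D.a j ∨ x = star (D.a j)) := by
        rintro (h | h)
        · apply hw
          rw [e5, h]; exact (hc1 j).2.2.2
        · exact e3 j h
      rw [if_neg hna, add_zero]
      by_cases hxz : x = z
      · rw [hw0, if_pos (Or.inl hxz)] at e4
        have hz1 : φ x = 1 := (by decide : ∀ a : ZMod 2, 0 = a + 1 → a = 1) _ e4
        rw [if_pos (Or.inl hxz)]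
        apply hχ1 _ hx
        unfold zp
        rw [← hxz, hz1, if_pos rfl]
        exact ReflTransGen.refl
      · have hn : ¬ (x = z ∨ x = star z) := by
          rintro (h | h)
          · exact hxz h
          · exact e2 h
        rw [hw0, if_neg hn, add_zero] at e4
        rw [if_neg hn]
        apply hχ0
        rintro ⟨-, h⟩
        exact h01 (by rw [e4]; exact hρ1 _ h)
  have hss : ∀ x y : Dart, star x = y ↔ x = star y := by
    intro x y
    constructor
    · intro h; rw [← h, star_star]
    · intro h; rw [h, star_star]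
  -- symmetry
  have hsym : ∀ x : Dart, χ (star x) + χ x = (if x = z ∨ x = star z then 1 else 0) +
        (if x = D.a j ∨ x = star (D.a j) then 1 else 0) := by
    intro x
    by_cases hx : D.FU x.1
    · by_cases hsx : D.FU (star x).1
      · have hn2 : ¬ (x = D.a j ∨ x = star (D.a j)) := by
          rintro (h | h)
          · apply (hc1 j).2.1; rw [← h]; exact hsx
          · apply (hc1 j).2.1; rw [← h]; exact hx
        rw [if_neg hn2, add_zero]
        have e4 : φ (star x) = φ x + if x = z ∨ x = star z then 1 else 0 := hφ.2.1 x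
        by_cases hxz : x = z ∨ x = star z
        · rw [if_pos hxz]
          rw [if_pos hxz] at e4
          have hzx : zp φ z = if φ x = 1 then x else star x := by
            unfold zp
            rcases hxz with h | h
            · rw [h]
            · have h5 : star x = z := (hss x z).2 h
              rw [h5] at e4
              rw [← h, h5, e4]
              by_cases h6 : φ x = 1
              · rw [h6, h11, if_neg h01, if_pos rfl]
              · rw [OR_zmod _ h6, zero_add, if_pos rfl, if_neg h01]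
          by_cases h6 : φ x = 1
          · rw [if_pos h6] at hzx
            rw [h6, h11] at e4
            rw [hχ1 x hx (by rw [hzx]; exact ReflTransGen.refl), hχ0 (star x), zero_add]
            rintro ⟨-, h⟩
            exact h01 (by rw [← e4]; exact hρ1 _ h)
          · rw [if_neg h6] at hzx
            rw [hχ1 (star x) hsx (by rw [hzx]; exact ReflTransGen.refl), hχ0 x, add_zero]
            rintro ⟨-, h⟩
            exact h6 (hρ1 _ h)
        · rw [if_neg hxz]
          rw [if_neg hxz, add_zero] at e4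
          by_cases h6 : φ x = 1
          · have hl := hlink x (star x) h6 (by rw [e4]; exact h6) (Or.inr ⟨Or.inl hx, rfl⟩)
            by_cases h7 : D.Cn φ (zp φ z) x
            · rw [hχ1 x hx h7, hχ1 (star x) hsx (hl.1 h7), h11]
            · rw [hχ0 x (fun h => h7 h.2), hχ0 (star x) (fun h => h7 (hl.2 h.2)), add_zero]
          · rw [hχ0 x (fun h => h6 (hρ1 _ h.2)), hχ0 (star x) (fun h => h6 (by
              rw [← e4]; exact hρ1 _ h.2)), add_zero]
      · exact hbd x hx hsx
    · by_cases hsx : D.FU (star x).1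
      · have h := hbd (star x) hsx (by rw [star_star]; exact hx)
        rw [star_star] at h
        rw [add_comm, h]
        congr 1
        · have : (star x = z ∨ star x = star z) ↔ (x = z ∨ x = star z) := by
            rw [hss, hss, star_star]; exact or_comm
          simp only [this]
        · have : (star x = D.a j ∨ star x = star (D.a j)) ↔ (x = D.a j ∨ x = star (D.a j)) := by
            rw [hss, hss, star_star]; exact or_comm
          simp only [this]
      · have hn : ¬ (x = z ∨ x = star z) := by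
          rintro (h | h)
          · exact hx (by rw [h]; exact hz)
          · exact hsx (by rw [h, star_star]; exact hz)
        have hn2 : ¬ (x = D.a j ∨ x = star (D.a j)) := by
          rintro (h | h)
          · exact hx (by rw [h]; exact (hc1 j).1)
          · exact hsx (by rw [h, star_star]; exact (hc1 j).1)
        rw [if_neg hn, if_neg hn2, hχ0 x (fun h => hx h.1), hχ0 (star x) (fun h => hsx h.1)]
  have hconf : (fun x => ψ x + χ x) ∈ D.Conf (D.a j) := by
    refine ⟨?_, ?_, ?_⟩
    · intro f hf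
      have h1 := hψ.1 f hf
      have h2 := hev f hf
      have : ∀ a b c d e f : ZMod 2, a + b + c = 0 → d + e + f = 0 →
          (a + d) + (b + e) + (c + f) = 0 := by decide
      exact this _ _ _ _ _ _ h1 h2
    · intro x
      have h1 := hψ.2.1 x
      have h2 := hsym x
      have : ∀ a b c d e f : ZMod 2, a = b + e → c + d = e + f → a + c = b + d + f := by decide
      exact this _ _ _ _ _ _ h1 h2
    · intro x hx
      show ψ x + χ x = D.wall x
      rw [hχ0 x (fun h => hx h.1), add_zero]
      exact hψ.2.2 x hx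
  refine ⟨hconf, ?_, ?_⟩
  · have h1 := hconf.2.1 (D.a j)
    have h2 := hconf.2.2 (star (D.a j)) (hc1 j).2.1
    rw [h2, (hc1 j).2.2.2] at h1
    simp only [true_or, if_true] at h1
    have h3 : ψ (D.a j) + χ (D.a j) = 0 := (by decide : ∀ a : ZMod 2, 1 = a + 1 → a = 0) _ h1
    have hne : ¬ ((fun x => ψ x + χ x) (D.a j) = 1) := by
      show ¬ (ψ (D.a j) + χ (D.a j) = 1)
      rw [h3]; exact h01
    unfold Dom.Jn zp
    rw [if_neg hne]
    exact ReflTransGen.refl
  · -- the class of the other wall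
    have hs1 : φ (star (D.a (j + 1))) = 1 := by
      rw [hφ.2.2 _ (hc1 _).2.1]; exact (hc1 _).2.2.2
    have hjne : j + 1 ≠ j := (by decide : ∀ j : Fin 3, j + 1 ≠ j) j
    have hsep : ¬ D.Cn φ (star (D.a (j + 1))) (zp φ z) := (hj4 (j + 1) hjne).2
    have hχz : ∀ x y, D.Cn φ (star (D.a (j + 1))) x → (x = y ∨ EXI_pot D x y) → χ y = 0 := by
      intro x y hx hxy
      apply hχ0
      rintro ⟨hy, hyρ⟩
      apply hsep
      rcases hxy with h | h
      · subst h
        exact hx.trans (EXI_csymm hyρ)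
      · have := (hlink x y (EXI_one hs1 hx) (hρ1 _ hyρ) h).2 hyρ
        exact hx.trans (EXI_csymm this)
    have hZ : ∀ x, D.Cn ψ (star (D.a (j + 1))) x ↔ D.Cn φ (star (D.a (j + 1))) x := by
      intro x
      have := Set.ext_iff.1 hcls x
      exact this
    ext x
    show D.Cn (fun x => ψ x + χ x) (star (D.a (j + 1))) x ↔ D.Cn φ (star (D.a (j + 1))) x
    constructor
    · intro h
      induction h with
      | refl => exact ReflTransGen.refl
      | @tail x y _ hl ih =>
        obtain ⟨l1, l2, l3⟩ := hl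
        simp only at l1 l2
        rw [hχz x x ih (Or.inl rfl), add_zero] at l1
        rw [hχz x y ih (Or.inr l3), add_zero] at l2
        rw [← hZ]
        exact ReflTransGen.tail ((hZ x).2 ih) ⟨l1, l2, l3⟩
    · intro h
      have h' := (hZ x).2 h
      clear h
      induction h' with
      | refl => exact ReflTransGen.refl
      | @tail x y hx hl ih =>
        have hxφ := (hZ x).1 hx
        refine ReflTransGen.tail ih ⟨?_, ?_, hl.2.2⟩
        · simp only
          rw [hχz x x hxφ (Or.inl rfl), add_zero]; exact hl.1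
        · simp only
          rw [hχz x y hxφ (Or.inr hl.2.2), add_zero]; exact hl.2.1

theorem EXI (hCO : CO_stmt) (hEX : EX_stmt) (hFC : FC_stmt) : EXI_stmt := by
  classical
  intro D z j B hz hB
  set A : Set (Dart → ZMod 2) := {ψ | ψ ∈ D.Conf z ∧ D.Jn ψ z j ∧
    ∃ x : Dart, x.1 ∈ B ∧ D.Cn ψ (star (D.a (j + 1))) x} with hA
  set A' : Set (Dart → ZMod 2) := {ψ | ψ ∈ D.Conf (D.a j) ∧ D.Jn ψ (D.a j) j ∧
    ∃ x : Dart, x.1 ∈ B ∧ D.Cn ψ (star (D.a (j + 1))) x} with hA'
  let cls : (Dart → ZMod 2) → Set Dart := fun ψ => {x | D.Cn ψ (star (D.a (j + 1))) x}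
  have hpick : ∀ Z : Set Dart, ∃ φ : Dart → ZMod 2, (∃ ψ ∈ A, cls ψ = Z) → φ ∈ A ∧ cls φ = Z := by
    intro Z
    by_cases h : ∃ ψ ∈ A, cls ψ = Z
    · obtain ⟨ψ, h1, h2⟩ := h
      exact ⟨ψ, fun _ => ⟨h1, h2⟩⟩
    · exact ⟨0, fun h' => absurd h' h⟩
  choose pick hpick using hpick
  let χ : Set Dart → Dart → ZMod 2 := fun Z x =>
    if D.FU x.1 ∧ D.Cn (pick Z) (zp (pick Z) z) x then 1 else 0
  let Φ : (Dart → ZMod 2) → (Dart → ZMod 2) := fun ψ x => ψ x + χ (cls ψ) x
  have hkey : ∀ ψ ∈ A, Φ ψ ∈ D.Conf (D.a j) ∧ D.Jn (Φ ψ) (D.a j) j ∧ cls (Φ ψ) = cls ψ := by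
    intro ψ hψ
    obtain ⟨h1, h2⟩ := hpick (cls ψ) ⟨ψ, hψ, rfl⟩
    have h3 := EXI_key hCO hEX D z j hz ψ (pick (cls ψ)) hψ.1 h1.1 h1.2.1 h2.symm (χ (cls ψ))
      (fun x hx hc => if_pos ⟨hx, hc⟩) (fun x hx => if_neg hx)
    exact ⟨h3.1, h3.2.1, h3.2.2.trans h2⟩
  have hle : A.ncard ≤ A'.ncard := by
    refine Set.ncard_le_ncard_of_injOn Φ ?_ ?_
      ((hFC D (D.a j) ((hCO D).2.1 j).1).1.subset (fun ψ hψ => hψ.1))
    · intro ψ hψ
      obtain ⟨h1, h2, h3⟩ := hkey ψ hψ
      obtain ⟨x, hx1, hx2⟩ := hψ.2.2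
      refine ⟨h1, h2, x, hx1, ?_⟩
      have : x ∈ cls (Φ ψ) := by rw [h3]; exact hx2
      exact this
    · intro ψ hψ ψ' hψ' he
      have h1 := (hkey ψ hψ).2.2
      have h2 := (hkey ψ' hψ').2.2
      have h3 : cls ψ = cls ψ' := by rw [← h1, ← h2]; exact congrArg cls he
      funext x
      have h4 := congrFun he x
      simp only [Φ] at h4
      rw [h3] at h4
      exact add_right_cancel h4
  show (A.ncard : ℝ) / 2 ^ D.U.card ≤ (A'.ncard : ℝ) / 2 ^ D.U.card
  apply div_le_div_of_nonneg_right _ (by positivity)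
  exact_mod_cast hle

end Pool.Agent.helper82.SC
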