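import Pool.Agent.helper16.SC.COR

/-!
# sp: the three positions of the source at a face (LC)
-/

namespace Pool.Agent.helper82.SC

open Relation

theorem LC_lift {K : Set F} {ψ φ : Dart → ZMod 2} (h' : ∀ x, ψ x = 1 → φ x = 1) {x y : Dart}
    (h : CnK K ψ x y) : CnK K φ x y := by
  induction h with
  | refl => exact ReflTransGen.refl
  | tail _ hl ih => exact ReflTransGen.tail ih ⟨h' _ hl.1, h' _ hl.2.1, hl.2.2⟩

theorem LC_cn {D : Dom} {f : F} {φ : Dart → ZMod 2} {x y : Dart} (h : CnK (Kf D f) φ x y) :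
    D.Cn φ x y := by
  induction h with
  | refl => exact ReflTransGen.refl
  | tail _ hl ih =>
    refine ReflTransGen.tail ih ⟨hl.1, hl.2.1, ?_⟩
    rcases hl.2.2 with ⟨h1, h2, h3⟩ | ⟨h1, h2⟩
    · exact Or.inl ⟨h1.1, h2, h3⟩
    · exact Or.inr ⟨h1.imp (fun h => h.1) (fun h => h.1), h2⟩

theorem LC_cases : ∀ o : Fin 3 → ZMod 2, o 0 + o 1 + o 2 = 1 →
    (∃ e0, o e0 = 1 ∧ ∀ e, e ≠ e0 → o e = 0) ∨ ∀ e, o e = 1 := by
  decide

theorem LC (hMV : MV_stmt) (hEX : EX_stmt) (hGM : GM_stmt) (hOR : OR_stmt) (hCO : CO_stmt) :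
    LC_stmt := by
  classical
  intro D f ψ hf hIn hψ
  obtain ⟨hfin, hc1, hc2, hainj⟩ := hCO D
  have hfK : f ∉ Kf D f := fun h => h.2 rfl
  have hKfin : (Kf D f).Finite := hfin.subset (fun g hg => hg.1)
  have hmem : ∀ d, mv f 0 d ψ ∈ D.Conf (f, d) := fun d => (hMV D f 0 d hf).mapsTo hψ
  have hoff : ∀ d (x : Dart), x.1 ≠ f → mv f 0 d ψ x = ψ x := by
    intro d x hx
    have h1 : x ≠ (f, 0) := fun h => hx (congrArg Prod.fst h)
    have h2 : x ≠ (f, d) := fun h => hx (congrArg Prod.fst h)
    simp only [mv, if_neg h1, if_neg h2, add_zero]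
  have hstarf : ∀ e e', star (f, e) ≠ (f, e') := by
    intro e e' h
    exact tw_ne f e (congrArg Prod.fst h)
  have hstar1 : ∀ e, (star (f, e)).1 ≠ f := fun e => tw_ne f e
  have hface : ∀ d e, mv f 0 d ψ (f, e) = ψ (star (f, e)) + if e = d then 1 else 0 := by
    intro d e
    have h1 := (hmem d).2.1 (f, e)
    rw [hoff d (star (f, e)) (hstar1 e)] at h1
    rw [h1]
    by_cases hed : e = d
    · subst hed
      simp only [true_or, if_true]
      rw [add_assoc, (by decide : (1 : ZMod 2) + 1 = 0), add_zero]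
    · have h2 : ¬ ((f, e) = (f, d) ∨ (f, e) = star (f, d)) := by
        rintro (h | h)
        · exact hed (congrArg Prod.snd h)
        · exact hstarf d e h.symm
      rw [if_neg h2, if_neg hed, add_zero, add_zero]
  have hsum : ψ (star (f, 0)) + ψ (star (f, 1)) + ψ (star (f, 2)) = 1 := by
    have h1 := (hmem 0).1 f hf
    rw [hface, hface, hface, if_pos rfl, if_neg (by decide), if_neg (by decide)] at h1
    exact (by decide : ∀ a b c : ZMod 2, (a + 1) + (b + 0) + (c + 0) = 0 → a + b + c = 1) _ _ _ h1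
  -- the configuration without the darts of `f`
  set ψ' : Dart → ZMod 2 := fun x => if x.1 = f then 0 else ψ x with hψ'
  have hψ'f : ∀ x, x.1 = f → ψ' x = 0 := fun x hx => by simp only [hψ', if_pos hx]
  have hψ'n : ∀ x, x.1 ≠ f → ψ' x = ψ x := fun x hx => by simp only [hψ', if_neg hx]
  have hψ'1 : ∀ x, ψ' x = 1 → x.1 ≠ f := by
    intro x hx h
    rw [hψ'f x h] at hx
    exact absurd hx (by decide)
  have hψ'd : ∀ d x, ψ' x = 1 → mv f 0 d ψ x = 1 := by
    intro d x hx
    have h1 := hψ'1 x hx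
    rw [hoff d x h1, ← hψ'n x h1]
    exact hx
  have hRcn : ∀ d {x y : Dart}, CnK (Kf D f) ψ' x y → D.Cn (mv f 0 d ψ) x y := by
    intro d x y h
    exact LC_cn (LC_lift (hψ'd d) h)
  rcases LC_cases (fun e => ψ (star (f, e))) hsum with ⟨e0, he0, hoth⟩ | hall
  · -- one wall
    obtain ⟨j, hj, -⟩ := hEX D (f, e0) hf _ (hmem e0)
    have hzero : ∀ e, mv f 0 e0 ψ (f, e) = 0 := by
      intro e
      rw [hface]
      by_cases h : e = e0
      · rw [if_pos h, h, he0]; decide
      · rw [if_neg h, hoth e h]; decide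
    have hzp0 : zp (mv f 0 e0 ψ) (f, e0) = star (f, e0) := by
      unfold zp
      rw [hzero e0, if_neg (by decide)]
    have hj1 : D.Cn (mv f 0 e0 ψ) (star (f, e0)) (star (D.a j)) := by
      have h := hj
      unfold Dom.Jn at h
      rw [hzp0] at h
      exact h
    have hnf : ∀ x, mv f 0 e0 ψ x = 1 → x.1 ≠ f := by
      intro x hx h
      have h1 := hzero x.2
      rw [← h] at h1
      rw [h] at h1
      have h2 : (f, x.2) = x := by rw [← h]
      rw [h2, hx] at h1
      exact absurd h1 (by decide)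
    have hR : ∀ y, D.Cn (mv f 0 e0 ψ) (star (f, e0)) y →
        CnK (Kf D f) ψ' (star (f, e0)) y := by
      intro y hy
      induction hy with
      | refl => exact ReflTransGen.refl
      | @tail y z _ hl ih =>
        have hy := hnf _ hl.1
        have hz := hnf _ hl.2.1
        refine ReflTransGen.tail ih ⟨?_, ?_, ?_⟩
        · rw [hψ'n _ hy, ← hoff e0 _ hy]; exact hl.1
        · rw [hψ'n _ hz, ← hoff e0 _ hz]; exact hl.2.1
        · rcases hl.2.2 with ⟨h1, h2, h3⟩ | ⟨h1, h2⟩
          · exact Or.inl ⟨⟨h1, hy⟩, h2, h3⟩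
          · exact Or.inr ⟨h1.imp (fun h => ⟨h, hy⟩) (fun h => ⟨h, hz⟩), h2⟩
    have hRj := hR _ hj1
    refine ⟨j, Or.inl (fun d => ?_)⟩
    unfold Dom.Jn
    refine ReflTransGen.trans ?_ (hRcn d hRj)
    by_cases hd : d = e0
    · subst hd
      rw [hzp0]
    · have h1 : mv f 0 d ψ (f, d) = 1 := by
        rw [hface, if_pos rfl, hoth d hd]; decide
      have h2 : mv f 0 d ψ (f, e0) = 1 := by
        rw [hface, if_neg (fun h => hd h.symm), he0]; decide
      have h3 : mv f 0 d ψ (star (f, e0)) = 1 := by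
        rw [hoff d _ (hstar1 e0)]; exact he0
      have hzp : zp (mv f 0 d ψ) (f, d) = (f, d) := by
        unfold zp
        rw [if_pos h1]
      rw [hzp]
      refine ReflTransGen.head (b := (f, e0)) ⟨h1, h2, Or.inl ⟨hf, rfl, ?_⟩⟩
        (ReflTransGen.single ⟨h2, h3, Or.inr ⟨Or.inl hf, rfl⟩⟩)
      intro h
      exact hd (congrArg Prod.snd h)
  · -- three walls
    have hKeven : ∀ g ∈ Kf D f, ψ' (g, 0) + ψ' (g, 1) + ψ' (g, 2) = 0 := by
      intro g hg
      rw [hψ'n (g, 0) hg.2, hψ'n (g, 1) hg.2, hψ'n (g, 2) hg.2]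
      exact hψ.1 g hg.1
    have hport : ∀ e, ¬ D.FU (tw f e) → ∃ k, (f, e) = D.a k := by
      intro e he
      have h1 : D.wall (star (f, e)) = 1 := by
        rw [← hψ.2.2 (star (f, e)) he]; exact hall e
      obtain ⟨k, hk⟩ := hc2 (star (f, e)) he (by rw [star_star]; exact hf) h1
      refine ⟨k, ?_⟩
      have := congrArg star hk
      rwa [star_star, star_star] at this
    have hps : ∀ e, ψ' (star (f, e)) = 1 := by
      intro e
      rw [hψ'n _ (hstar1 e)]; exact hall e
    have hInc : ∀ e, D.FU (tw f e) → Inc (Kf D f) ψ' (star (f, e), false) := by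
      intro e he
      refine ⟨hps e, Or.inl ⟨he, hstar1 e⟩, ?_⟩
      simp only [Bool.false_eq_true, if_false, star_star]
      exact hψ'f _ rfl
    have hnoiso : ∀ e y, CnK (Kf D f) ψ' (star (f, e)) y → y ≠ star (f, e) → D.FU (tw f e) := by
      intro e y hy hne
      by_contra hno
      exact hne (OR_iso (fun h => hno h.1) (by rw [star_star]; exact hfK) hy)
    have hsne : ∀ e e', e ≠ e' → star (f, e) ≠ star (f, e') := by
      intro e e' h h1
      exact h (congrArg Prod.snd h1)
    have hU1 : ∀ e, (∃ m, CnK (Kf D f) ψ' (star (f, e)) (star (D.a m))) ∨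
        ∃ e', e' ≠ e ∧ CnK (Kf D f) ψ' (star (f, e)) (star (f, e')) := by
      intro e
      by_cases he : D.FU (tw f e)
      · obtain ⟨i', ⟨hne, hi', hcn⟩, -⟩ := hGM (Kf D f) ψ' hKfin hKeven _ (hInc e he)
        obtain ⟨x, b⟩ := i'
        obtain ⟨h1, h2, h3⟩ := hi'
        simp only at h1 h2 h3 hcn
        have hxf := hψ'1 x h1
        cases b with
        | true =>
          simp only [if_true] at h3
          left
          have hxU : ¬ D.FU x.1 := fun h => h3 ⟨h, hxf⟩
          have h4 : (star x).1 ∈ Kf D f := h2.resolve_left h3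
          have h5 : D.wall x = 1 := by
            rw [← hψ.2.2 x hxU, ← hψ'n x hxf]; exact h1
          obtain ⟨m, hm⟩ := hc2 x hxU h4.1 h5
          exact ⟨m, hm ▸ hcn⟩
        | false =>
          simp only [Bool.false_eq_true, if_false] at h3
          right
          have h4 : (star x).1 = f := by
            by_contra h4
            rw [hψ'n _ h4, hψ.2.1 x, if_neg, add_zero, ← hψ'n x hxf, h1] at h3
            · exact absurd h3 (by decide)
            · rintro (h | h)
              · exact hxf (congrArg Prod.fst h)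
              · apply h4
                rw [h, star_star]
          have h5 : x = star (f, x.2) := by
            have h6 : star x = (f, x.2) := by rw [← h4]; rfl
            rw [← h6, star_star]
          refine ⟨x.2, ?_, ?_⟩
          · intro h
            apply hne
            rw [h5, h]
          · rw [← h5]; exact hcn
      · left
        obtain ⟨k, hk⟩ := hport e he
        exact ⟨k, hk ▸ ReflTransGen.refl⟩
    have hU2 : ∀ e e' e'', e ≠ e' → e ≠ e'' → e' ≠ e'' →
        CnK (Kf D f) ψ' (star (f, e)) (star (f, e')) →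
        CnK (Kf D f) ψ' (star (f, e)) (star (f, e'')) → False := by
      intro e e' e'' h1 h2 h3 h4 h5
      have hFe := hnoiso e _ h4 (hsne _ _ h1.symm)
      have hFe' := hnoiso e' _ (OR_csymm h4) (hsne _ _ h1)
      have hFe'' := hnoiso e'' _ (OR_csymm h5) (hsne _ _ h2)
      obtain ⟨i', -, hu⟩ := hGM (Kf D f) ψ' hKfin hKeven _ (hInc e hFe)
      have e1 := hu (star (f, e'), false) ⟨fun h => hsne _ _ h1.symm (congrArg Prod.fst h),
        hInc e' hFe', h4⟩
      have e2 := hu (star (f, e''), false) ⟨fun h => hsne _ _ h2.symm (congrArg Prod.fst h),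
        hInc e'' hFe'', h5⟩
      rw [← e2] at e1
      exact hsne _ _ h3 (congrArg Prod.fst e1)
    have hzp : ∀ d, zp (mv f 0 d ψ) (f, d) = star (f, d) := by
      intro d
      unfold zp
      rw [if_neg]
      rw [hface, if_pos rfl, hall]
      decide
    by_cases hpair : ∃ e e', e ≠ e' ∧ CnK (Kf D f) ψ' (star (f, e)) (star (f, e'))
    · obtain ⟨e, e', hne, hR⟩ := hpair
      obtain ⟨e'', h1, h2, hcov⟩ := (by decide : ∀ e e' : Fin 3, e ≠ e' →
        ∃ e'', e ≠ e'' ∧ e' ≠ e'' ∧ ∀ d, d = e ∨ d = e' ∨ d = e'') e e' hne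
      have hm : ∃ m, CnK (Kf D f) ψ' (star (f, e'')) (star (D.a m)) := by
        rcases hU1 e'' with h | ⟨d, hd, hRd⟩
        · exact h
        · exfalso
          rcases hcov d with h | h | h
          · rw [h] at hRd
            exact hU2 e e' e'' hne h1 h2 hR (OR_csymm hRd)
          · rw [h] at hRd
            exact hU2 e' e e'' hne.symm h2 h1 (OR_csymm hR) (OR_csymm hRd)
          · exact hd h
      obtain ⟨m, hm⟩ := hm
      -- through the face
      have hthru : ∀ d u, d ≠ u → d ≠ e'' → u ≠ e'' →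
          CnK (Kf D f) ψ' (star (f, d)) (star (f, u)) →
          D.Cn (mv f 0 d ψ) (star (f, d)) (star (D.a m)) := by
        intro d u hdu hd hu hRu
        have k1 : mv f 0 d ψ (star (f, u)) = 1 := by rw [hoff d _ (hstar1 u)]; exact hall u
        have k2 : mv f 0 d ψ (f, u) = 1 := by
          rw [hface, if_neg hdu.symm, hall]; decide
        have k3 : mv f 0 d ψ (f, e'') = 1 := by
          rw [hface, if_neg hd.symm, hall]; decide
        have k4 : mv f 0 d ψ (star (f, e'')) = 1 := by
          rw [hoff d _ (hstar1 e'')]; exact hall e''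
        refine ReflTransGen.trans (hRcn d hRu) ?_
        refine ReflTransGen.head (b := (f, u)) ⟨k1, k2, Or.inr ⟨Or.inr hf, (star_star _).symm⟩⟩ ?_
        refine ReflTransGen.head (b := (f, e'')) ⟨k2, k3, Or.inl ⟨hf, rfl, ?_⟩⟩ ?_
        · intro h
          exact hu (congrArg Prod.snd h)
        · exact ReflTransGen.head (b := star (f, e'')) ⟨k3, k4, Or.inr ⟨Or.inl hf, rfl⟩⟩ (hRcn d hm)
      refine ⟨m, Or.inl (fun d => ?_)⟩
      unfold Dom.Jn
      rw [hzp]
      rcases hcov d with h | h | h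
      · rw [h]; exact hthru e e' hne h1 h2 hR
      · rw [h]; exact hthru e' e hne.symm h2 h1 (OR_csymm hR)
      · rw [h]; exact hRcn e'' hm
    · have hno : ∀ e e', e ≠ e' → ¬ CnK (Kf D f) ψ' (star (f, e)) (star (f, e')) :=
        fun e e' h1 h2 => hpair ⟨e, e', h1, h2⟩
      have hex : ∀ e, ∃ m, CnK (Kf D f) ψ' (star (f, e)) (star (D.a m)) := by
        intro e
        rcases hU1 e with h | ⟨d, hd, hRd⟩
        · exact h
        · exact absurd hRd (hno e d hd.symm)
      choose m hm using hex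
      have hinj : ∀ e e', e ≠ e' → m e ≠ m e' := by
        intro e e' hne h
        apply hno e e' hne
        have h1 := hm e
        rw [h] at h1
        exact h1.trans (OR_csymm (hm e'))
      have hlift : ∀ d e, CnK (Kf D f) (mv f 0 d ψ) (star (f, e)) (star (D.a (m e))) :=
        fun d e => LC_lift (hψ'd d) (hm e)
      have hall' : ∀ d e, mv f 0 d ψ (star (f, e)) = 1 := by
        intro d e
        rw [hoff d _ (hstar1 e)]; exact hall e
      have r0 := hOR D f 0 (m 0) (m 1) (m 2) (mv f 0 0 ψ) hf hIn (hmem 0) (hall' 0)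
        (hinj _ _ (by decide)) (hinj _ _ (by decide)) (hinj _ _ (by decide)) (hlift 0 0) (hlift 0 1)
        (hlift 0 2)
      have r1 := hOR D f 1 (m 1) (m 2) (m 0) (mv f 0 1 ψ) hf hIn (hmem 1) (hall' 1)
        (hinj _ _ (by decide)) (hinj _ _ (by decide)) (hinj _ _ (by decide)) (hlift 1 1) (hlift 1 2)
        (hlift 1 0)
      refine ⟨m 0, Or.inr (fun d => ?_)⟩
      have hd : m 0 + d = m d := by
        rw [r0] at r1
        have h0 : ∀ a : Fin 3, a + 0 = a := by decide
        have h2 : ∀ a : Fin 3, a + 1 + 1 = a + 2 := by decide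
        rw [h2] at r1
        rcases (by decide : ∀ d : Fin 3, d = 0 ∨ d = 1 ∨ d = 2) d with h | h | h
        · rw [h, h0]
        · rw [h, r0]
        · rw [h, r1]
      rw [hd]
      unfold Dom.Jn
      rw [hzp]
      exact hRcn d (hm d)

end Pool.Agent.helper82.SC
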