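import Pool.Agent.helper82.SC.SpecA

/-!
# sp: the orientation lemma (OR)
-/

namespace Pool.Agent.helper82.SC

open Relation

theorem OR_symm {K : Set F} {ψ : Dart → ZMod 2} {x y : Dart} (h : LinkK K ψ x y) :
    LinkK K ψ y x := by
  obtain ⟨h1, h2, h3⟩ := h
  refine ⟨h2, h1, ?_⟩
  rcases h3 with ⟨h4, h5, h6⟩ | ⟨h4, h5⟩
  · exact Or.inl ⟨h5 ▸ h4, h5.symm, h6.symm⟩
  · refine Or.inr ⟨h4.symm, ?_⟩
    rw [h5, star_star]

theorem OR_csymm {K : Set F} {ψ : Dart → ZMod 2} {x y : Dart} (h : CnK K ψ x y) :
    CnK K ψ y x := by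
  induction h with
  | refl => exact ReflTransGen.refl
  | tail _ hl ih => exact ReflTransGen.head (OR_symm hl) ih

theorem OR_one {K : Set F} {ψ : Dart → ZMod 2} {x y : Dart} (hx : ψ x = 1) (h : CnK K ψ x y) :
    ψ y = 1 := by
  cases h with
  | refl => exact hx
  | tail _ hl => exact hl.2.1

/-- a dart outside `K` whose other half is also outside `K` is isolated -/
theorem OR_iso {K : Set F} {ψ : Dart → ZMod 2} {x y : Dart} (h1 : x.1 ∉ K) (h2 : (star x).1 ∉ K)
    (h : CnK K ψ x y) : y = x := by
  induction h with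
  | refl => rfl
  | tail _ hl ih =>
    subst ih
    rcases hl.2.2 with ⟨h4, _, _⟩ | ⟨h4 | h4, h5⟩
    · exact absurd h4 h1
    · exact absurd h4 h1
    · rw [h5] at h4
      exact absurd h4 h2

theorem OR_zmod (a : ZMod 2) (h : a ≠ 1) : a = 0 := by
  revert a; decide

theorem OR (hGM : GM_stmt) (hGP : GP_stmt) (hCO : CO_stmt) : OR_stmt := by
  classical
  intro D f d m p q ψ hf _ hψ ho hmp hmq hpq hm hp hq
  obtain ⟨hfin, hc1, hc2, hainj⟩ := hCO D
  obtain ⟨heven, hsym, hout⟩ := hψ
  have hfK : f ∉ Kf D f := fun h => h.2 rfl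
  have hKfin : (Kf D f).Finite := hfin.subset (fun g hg => hg.1)
  have hKeven : ∀ g ∈ Kf D f, ψ (g, 0) + ψ (g, 1) + ψ (g, 2) = 0 := fun g hg => heven g hg.1
  -- corners are outside
  have hext : ∀ k, (star (D.a k)).1 ∉ Kf D f := fun k h => (hc1 k).2.1 h.1
  have hstar1 : ∀ e, (star (f, e)).1 = tw f e := fun e => rfl
  -- a port outside the domain is a corner
  have hport : ∀ e, ¬ D.FU (tw f e) → ∃ k, (f, e) = D.a k := by
    intro e he
    have h1 : D.wall (star (f, e)) = 1 := by
      rw [← hout (star (f, e)) he]; exact ho e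
    obtain ⟨k, hk⟩ := hc2 (star (f, e)) he (by rw [star_star]; exact hf) h1
    refine ⟨k, ?_⟩
    have := congrArg star hk
    rwa [star_star, star_star] at this
  -- if the star of a corner is joined to another dart then its face is not `f`
  have hcf : ∀ k y, CnK (Kf D f) ψ (star (D.a k)) y → y ≠ star (D.a k) → (D.a k).1 ∈ Kf D f := by
    intro k y hy hne
    refine ⟨(hc1 k).1, ?_⟩
    intro h
    apply hne
    apply OR_iso (hext k) _ hy
    rw [star_star, h]
    exact hfK
  have hψd : ψ (f, d) = 0 := by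
    have h1 := hsym (f, d)
    rw [ho d] at h1
    simp only [true_or, if_true] at h1
    have : ∀ a : ZMod 2, 1 = a + 1 → a = 0 := by decide
    exact this _ h1
  have hψe : ∀ e, e ≠ d → ψ (f, e) = 1 := by
    intro e he
    have h1 := hsym (f, e)
    rw [ho e, if_neg, add_zero] at h1
    · exact h1.symm
    · rintro (h | h)
      · exact he (congrArg Prod.snd h)
      · have := congrArg Prod.fst h
        exact tw_ne f d this.symm
  have hwc : ∀ k, ψ (star (D.a k)) = 1 := by
    intro k
    rw [hout _ (hc1 k).2.1]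
    exact (hc1 k).2.2.2
  -- the class of the port `d`
  set X : Set Dart := {x | CnK (Kf D f) ψ (star (f, d)) x} with hX
  have hX1 : ∀ x ∈ X, ψ x = 1 := fun x hx => OR_one (ho d) hx
  have hXself : star (f, d) ∈ X := ReflTransGen.refl
  have hXm : star (D.a m) ∈ X := hm
  have hXcorner : ∀ k, k ≠ m → star (D.a k) ∉ X := by
    intro k hk hkX
    have hkm : CnK (Kf D f) ψ (star (D.a m)) (star (D.a k)) := (OR_csymm hm).trans hkX
    have hne : star (D.a k) ≠ star (D.a m) := by
      intro h
      have := congrArg star h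
      rw [star_star, star_star] at this
      exact hk (hainj this)
    have hmK := hcf m _ hkm hne
    have hkK := hcf k _ (OR_csymm hkm) hne.symm
    by_cases hFU : D.FU (tw f d)
    · -- the port is an incidence
      have hi : Inc (Kf D f) ψ (star (f, d), false) := by
        refine ⟨ho d, Or.inl ⟨hFU, tw_ne f d⟩, ?_⟩
        simp only [Bool.false_eq_true, if_false, star_star]
        exact hψd
      have hcm : ∀ k, (D.a k).1 ∈ Kf D f → Inc (Kf D f) ψ (star (D.a k), true) := by
        intro k hk
        refine ⟨hwc k, Or.inr (by rw [star_star]; exact hk), ?_⟩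
        simp only [if_true]
        exact hext k
      obtain ⟨i', _, hu⟩ := hGM (Kf D f) ψ hKfin hKeven _ hi
      have e1 := hu (star (D.a m), true) ⟨by simp, hcm m hmK, hm⟩
      have e2 := hu (star (D.a k), true) ⟨by simp, hcm k hkK, hkX⟩
      rw [← e2] at e1
      exact hne (congrArg Prod.fst e1).symm
    · have h1 : (star (star (f, d))).1 ∉ Kf D f := by rw [star_star]; exact hfK
      have h2 : (star (f, d)).1 ∉ Kf D f := fun h => hFU h.1
      have h3 := OR_iso h2 h1 hm
      have h4 := OR_iso h2 h1 hkX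
      exact hne (h4.trans h3.symm)
  have hXport1 : star (f, d + 1) ∉ X := by
    intro h
    exact hXcorner p hmp.symm (ReflTransGen.trans h hp)
  have hXport2 : star (f, d + 2) ∉ X := by
    intro h
    exact hXcorner q hmq.symm (ReflTransGen.trans h hq)
  have hcases : ∀ e : Fin 3, e ≠ d → e = d + 1 ∨ e = d + 2 :=
    (by decide : ∀ d e : Fin 3, e ≠ d → e = d + 1 ∨ e = d + 2) d
  have hXport : ∀ e, e ≠ d → star (f, e) ∉ X := by
    intro e he
    rcases hcases e he with h | h
    · rw [h]; exact hXport1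
    · rw [h]; exact hXport2
  -- darts of `f` are not in `X`
  have hXf : ∀ e, (f, e) ∉ X := by
    intro e he
    by_cases hed : e = d
    · subst hed
      have := hX1 _ he
      rw [hψd] at this
      exact absurd this (by decide)
    · have he' : CnK (Kf D f) ψ (f, e) (star (f, d)) := OR_csymm he
      by_cases hFU : D.FU (tw f e)
      · apply hXport e hed
        refine ReflTransGen.tail he ⟨hψe e hed, ho e, Or.inr ⟨Or.inr ⟨hFU, tw_ne f e⟩, rfl⟩⟩
      · have h5 := OR_iso hfK (fun h => hFU h.1 : (star (f, e)).1 ∉ Kf D f) he'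
        have := congrArg Prod.fst h5
        exact tw_ne f d this
  -- closure of X
  have hXface : ∀ x ∈ X, x.1 ∈ Kf D f → ∀ e, ψ (x.1, e) = 1 → (x.1, e) ∈ X := by
    intro x hx hxK e he
    by_cases hxe : x = (x.1, e)
    · rw [← hxe]; exact hx
    · exact ReflTransGen.tail hx ⟨hX1 x hx, he, Or.inl ⟨hxK, rfl, hxe⟩⟩
  -- the modified configuration
  set ω : Dart → ZMod 2 := fun x => if x ∈ X then 0 else ψ x with hω
  have hωX : ∀ x ∈ X, ω x = 0 := fun x hx => if_pos hx
  have hωn : ∀ x, x ∉ X → ω x = ψ x := fun x hx => if_neg hx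
  have hωface : ∀ x ∈ X, x.1 ∈ Kf D f → ∀ e, ω (x.1, e) = 0 := by
    intro x hx hxK e
    by_cases he : ψ (x.1, e) = 1
    · exact hωX _ (hXface x hx hxK e he)
    · have h0 := OR_zmod _ he
      simp only [hω]
      split_ifs
      · rfl
      · exact h0
  have hωf : ω (f, d) = 0 ∧ ∀ e, e ≠ d → ω (f, e) = 1 :=
    ⟨by rw [hωn _ (hXf d), hψd], fun e he => by rw [hωn _ (hXf e), hψe e he]⟩
  have hωeven : ∀ g, D.FU g → ω (g, 0) + ω (g, 1) + ω (g, 2) = 0 := by
    intro g hg
    by_cases hgf : g = f
    · subst hgf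
      rw [hωn _ (hXf 0), hωn _ (hXf 1), hωn _ (hXf 2)]
      exact heven _ hg
    · by_cases hex : ∃ e, (g, e) ∈ X
      · obtain ⟨e, he⟩ := hex
        have h0 := hωface (g, e) he ⟨hg, hgf⟩
        rw [h0 0, h0 1, h0 2]
        decide
      · push Not at hex
        rw [hωn _ (hex 0), hωn _ (hex 1), hωn _ (hex 2)]
        exact heven g hg
  -- symmetry
  have hXsym : ∀ x, x ≠ (f, d) → x ≠ star (f, d) → (x.1 ∈ Kf D f ∨ (star x).1 ∈ Kf D f) → x ∈ X →
      star x ∈ X := by
    intro x h1 h2 h3 hx
    have h4 := hsym x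
    rw [if_neg (by rintro (h | h); exacts [h1 h, h2 h]), add_zero, hX1 x hx] at h4
    exact ReflTransGen.tail hx ⟨hX1 x hx, h4, Or.inr ⟨h3, rfl⟩⟩
  have hωsym : ∀ x, D.FU x.1 → ω (star x) = ω x := by
    intro x hxF
    by_cases h1 : x = (f, d)
    · rw [h1, hωX _ hXself, hωf.1]
    by_cases h2 : x = star (f, d)
    · rw [h2, star_star, hωX _ hXself, hωf.1]
    by_cases h3 : x.1 ∈ Kf D f ∨ (star x).1 ∈ Kf D f
    · have h4 := hsym x
      rw [if_neg (by rintro (h | h); exacts [h1 h, h2 h]), add_zero] at h4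
      by_cases hx : x ∈ X
      · rw [hωX _ hx, hωX _ (hXsym x h1 h2 h3 hx)]
      · have hsx : star x ∉ X := by
          intro hsx
          have h5 := hXsym (star x) (fun h => h2 (by rw [← h, star_star]))
            (fun h => h1 (by have := congrArg star h; rwa [star_star, star_star] at this))
            (by rw [star_star]; exact h3.symm) hsx
          rw [star_star] at h5
          exact hx h5
        rw [hωn _ hx, hωn _ hsx, h4]
    · push Not at h3
      -- x is at the face f
      have hx1 : x.1 = f := by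
        by_contra hne
        exact h3.1 ⟨hxF, hne⟩
      obtain ⟨g, e⟩ := x
      simp only at hx1 hxF
      subst hx1
      have hed : e ≠ d := fun h => h1 (by rw [h])
      rw [hωn _ (hXport e hed), hωn _ (hXf e), ho e, hψe e hed]
  -- the exterior values
  set β : V → ZMod 2 := fun v => if D.sec v = m then 1 else 0 with hβ
  have hbd : ∀ x : Dart, D.FU x.1 → ¬ D.FU (star x).1 →
      ω x = β (S x.1 x.2) + β (S x.1 (x.2 + 1)) := by
    intro x hx hsx
    rw [← hωsym x hx]
    by_cases hw : D.wall (star x) = 1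
    · obtain ⟨k, hk⟩ := hc2 (star x) hsx (by rw [star_star]; exact hx) hw
      have hxk : x = D.a k := by
        have := congrArg star hk
        rwa [star_star, star_star] at this
      rw [hk]
      by_cases hkm : k = m
      · subst hkm
        rw [hωX _ hXm, hxk]
        simp only [hβ, D.sec_first, D.sec_second]
        have : ∀ k : Fin 3, (0 : ZMod 2) = (if k + 1 = k then 1 else 0) + if k + 2 = k then 1 else 0 := by
          decide
        exact this k
      · rw [hωn _ (hXcorner k hkm), hwc k, hxk]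
        simp only [hβ, D.sec_first, D.sec_second]
        have : ∀ k m : Fin 3, k ≠ m →
            (1 : ZMod 2) = (if k + 1 = m then 1 else 0) + if k + 2 = m then 1 else 0 := by
          decide
        exact this k m hkm
    · have hw0 := OR_zmod _ hw
      have h1 : ψ (star x) = 0 := by rw [hout _ hsx, hw0]
      have h2 : ω (star x) = 0 := by
        simp only [hω]
        split_ifs
        · rfl
        · exact h1
      rw [h2]
      have h3 : D.sec (S x.1 x.2) = D.sec (S x.1 (x.2 + 1)) := by
        unfold Dom.wall at hw0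
        have h4 : S (star x).1 (star x).2 = S x.1 (x.2 + 1) := S_tw x.1 x.2
        have h5 : S (star x).1 ((star x).2 + 1) = S x.1 x.2 := S_tw' x.1 x.2
        rw [h4, h5] at hw0
        by_contra hne
        rw [if_neg (fun h => hne h.symm)] at hw0
        exact absurd hw0 (by decide)
      simp only [hβ, h3]
      split_ifs <;> decide
  -- Poincare
  set φ : Dart → ZMod 2 := fun x => if D.FU x.1 then ω x + (β (S x.1 x.2) + β (S x.1 (x.2 + 1))) else 0
    with hφ
  have hφ1 : ∀ g : F, φ (g, 0) + φ (g, 1) + φ (g, 2) = 0 := by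
    intro g
    simp only [hφ]
    split_ifs with hg
    · have h1 := hωeven g hg
      have h2 : ∀ a b c x y z : ZMod 2, a + b + c = 0 →
          (a + (x + y)) + (b + (y + z)) + (c + (z + x)) = 0 := by decide
      exact h2 _ _ _ _ _ _ h1
    · decide
  have hadd : ∀ a : ZMod 2, a + a = 0 := by decide
  have hφb : ∀ x : Dart, D.FU x.1 → ¬ D.FU (star x).1 → φ x = 0 := by
    intro x hx hsx
    simp only [hφ, if_pos hx]
    rw [hbd x hx hsx, hadd]
  have hφ2 : ∀ x, φ (star x) = φ x := by
    intro x
    by_cases hx : D.FU x.1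
    · by_cases hsx : D.FU (star x).1
      · simp only [hφ, if_pos hx, if_pos hsx]
        have h4 : S (star x).1 (star x).2 = S x.1 (x.2 + 1) := S_tw x.1 x.2
        have h5 : S (star x).1 ((star x).2 + 1) = S x.1 x.2 := S_tw' x.1 x.2
        rw [h4, h5, hωsym x hx, add_comm (β (S x.1 (x.2 + 1)))]
      · rw [hφb x hx hsx]
        simp only [hφ, if_neg hsx]
    · by_cases hsx : D.FU (star x).1
      · rw [hφb (star x) hsx (by rw [star_star]; exact hx)]
        simp only [hφ, if_neg hx]
      · simp only [hφ, if_neg hx, if_neg hsx]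
  have hφ3 : ∀ x : Dart, S x.1 x.2 ∉ D.U → S x.1 (x.2 + 1) ∉ D.U → φ x = 0 := by
    intro x h1 h2
    by_cases hx : D.FU x.1
    · apply hφb x hx
      have h3 : S x.1 (x.2 + 2) ∈ D.U := by
        obtain ⟨e, he⟩ := hx
        have h4 : ∀ a b : Fin 3, b = a ∨ b = a + 1 ∨ b = a + 2 := by decide
        rcases h4 x.2 e with h | h | h
        · rw [h] at he; exact absurd he h1
        · rw [h] at he; exact absurd he h2
        · rw [h] at he; exact he
      have h4 := D.outer x.1 x.2 h3 h1 h2
      rintro ⟨e, he⟩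
      have h5 : ∀ a b : Fin 3, b = a ∨ b = a + 1 ∨ b = a + 2 := by decide
      have he' : S (tw x.1 x.2) e ∈ D.U := he
      rcases h5 x.2 e with h | h | h
      · rw [h, S_tw] at he'; exact h2 he'
      · rw [h, S_tw'] at he'; exact h1 he'
      · rw [h] at he'; exact h4 he'
    · simp only [hφ, if_neg hx]
  obtain ⟨c0, hc0, hc0'⟩ := D.poincare φ hφ1 hφ2 hφ3
  set c : V → ZMod 2 := fun v => c0 v + β v with hc
  have hcU : ∀ v, v ∉ D.U → c v = β v := by
    intro v hv
    simp only [hc, hc0 v hv, zero_add]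
  have hcω : ∀ x : Dart, D.FU x.1 → ω x = c (S x.1 x.2) + c (S x.1 (x.2 + 1)) := by
    intro x hx
    have h1 := hc0' x
    simp only [hφ, if_pos hx] at h1
    simp only [hc]
    have h2 : ∀ w b1 b2 u v : ZMod 2, w + (b1 + b2) = u + v → w = u + b1 + (v + b2) := by decide
    exact h2 _ _ _ _ _ h1
  -- `c` is constant along `X`
  have hconst : ∀ x ∈ X, c (S x.1 x.2) = c (S f d) ∧ c (S x.1 (x.2 + 1)) = c (S f d) := by
    have hself : c (S f (d + 1)) = c (S f d) := by
      have h1 := hcω (f, d) hf
      rw [hωf.1] at h1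
      have h2 : ∀ a b : ZMod 2, 0 = a + b → b = a := by decide
      exact h2 _ _ h1
    intro x hx
    induction hx with
    | refl =>
      refine ⟨?_, ?_⟩
      · show c (S (tw f d) d) = _
        rw [S_tw]; exact hself
      · show c (S (tw f d) (d + 1)) = _
        rw [S_tw']
    | @tail y z hy hl ih =>
      have hyX : y ∈ X := hy
      rcases hl.2.2 with ⟨h4, h5, _⟩ | ⟨_, h5⟩
      · have h0 := hωface y hyX h4
        have hyF : D.FU y.1 := h4.1
        have hall : ∀ e, c (S y.1 e) = c (S y.1 (e + 1)) := by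
          intro e
          have h6 := hcω (y.1, e) hyF
          rw [h0 e] at h6
          have h2 : ∀ a b : ZMod 2, 0 = a + b → a = b := by decide
          exact h2 _ _ h6
        have hall2 : ∀ e, c (S y.1 e) = c (S f d) := by
          have h7 : ∀ (g : Fin 3 → ZMod 2) (a : ZMod 2) (i : Fin 3), (∀ e, g e = g (e + 1)) →
              g i = a → ∀ e, g e = a := by decide
          exact h7 (fun e => c (S y.1 e)) _ y.2 hall ih.1
        rw [← h5]
        exact ⟨hall2 _, hall2 _⟩
      · rw [h5]
        refine ⟨?_, ?_⟩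
        · show c (S (tw y.1 y.2) y.2) = _
          rw [S_tw]; exact ih.2
        · show c (S (tw y.1 y.2) (y.2 + 1)) = _
          rw [S_tw']; exact ih.1
  have hcm : c (S f d) = 0 := by
    have h1 := (hconst _ hXm).1
    have h2 : S (star (D.a m)).1 (star (D.a m)).2 = S (D.a m).1 ((D.a m).2 + 1) := S_tw _ _
    rw [h2, hcU _ (D.second m)] at h1
    rw [← h1]
    simp only [hβ, D.sec_second]
    have : ∀ k : Fin 3, (if k + 2 = k then (1 : ZMod 2) else 0) = 0 := by decide
    exact this m
  have hcd1 : c (S f (d + 1)) = 0 := by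
    have h1 := hcω (f, d) hf
    rw [hωf.1, hcm, zero_add] at h1
    exact h1.symm
  have hd1 : d + 1 ≠ d := (by decide : ∀ d : Fin 3, d + 1 ≠ d) d
  have hcd2 : c (S f (d + 2)) = 1 := by
    have h1 := hcω (f, d + 1) hf
    rw [hωf.2 _ hd1] at h1
    simp only at h1
    rw [hcd1, zero_add] at h1
    have h2 : d + 1 + 1 = d + 2 := (by decide : ∀ d : Fin 3, d + 1 + 1 = d + 2) d
    rw [h2] at h1
    exact h1.symm
  -- conclusion
  have hfinal : (if p + 2 = m then (1 : ZMod 2) else 0) = 1 → p = m + 1 := by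
    have : ∀ p m : Fin 3, (if p + 2 = m then (1 : ZMod 2) else 0) = 1 → p = m + 1 := by decide
    exact this p m
  apply hfinal
  by_cases hFU : D.FU (tw f (d + 1))
  · have hne : star (f, d + 1) ≠ star (D.a p) := by
      intro h
      have h1 : (star (D.a p)).1 = tw f (d + 1) := by rw [← h]; rfl
      exact (hc1 p).2.1 (by rw [h1]; exact hFU)
    have hpK := hcf p _ (OR_csymm hp) hne
    have hXp : star (D.a p) ∉ X := hXcorner p hmp.symm
    -- path for ω
    have hpath : ∀ y, CnK (Kf D f) ψ (star (f, d + 1)) y →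
        CnK (Kf D f) ω (star (f, d + 1)) y := by
      intro y hy
      induction hy with
      | refl => exact ReflTransGen.refl
      | @tail y z hy hl ih =>
        have hyX : y ∉ X := by
          intro h
          exact hXport1 (ReflTransGen.trans h (OR_csymm hy))
        have hzX : z ∉ X := by
          intro h
          exact hyX (ReflTransGen.trans h (ReflTransGen.single (OR_symm hl)))
        refine ReflTransGen.tail ih ⟨?_, ?_, hl.2.2⟩
        · rw [hωn _ hyX]; exact hl.1
        · rw [hωn _ hzX]; exact hl.2.1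
    have h1 := hGP (Kf D f) ω c hKfin (fun x hx => hcω x hx.1) ((f, d + 1), true)
      (star (D.a p), true) (by
        intro h
        have h2 : star (D.a p) = (f, d + 1) := congrArg Prod.fst h
        apply (hc1 p).2.1
        rw [h2]; exact hf)
      ⟨hωf.2 _ hd1, Or.inr ⟨hFU, tw_ne f _⟩, by simp only [if_true]; exact hfK⟩
      ⟨by rw [hωn _ hXp]; exact hwc p, Or.inr (by rw [star_star]; exact hpK), by
        simp only [if_true]; exact hext p⟩
      (ReflTransGen.head ⟨hωf.2 _ hd1, by rw [hωn _ hXport1]; exact ho _,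
        Or.inr ⟨Or.inr ⟨hFU, tw_ne f _⟩, rfl⟩⟩ (hpath _ hp))
    simp only [if_true] at h1
    have h2 : S (star (D.a p)).1 (star (D.a p)).2 = S (D.a p).1 ((D.a p).2 + 1) := S_tw _ _
    rw [h2, hcU _ (D.second p), hcd1, zero_add] at h1
    simp only [hβ, D.sec_second] at h1
    exact h1
  · have h1 : (star (star (f, d + 1))).1 ∉ Kf D f := by rw [star_star]; exact hfK
    have h2 : (star (f, d + 1)).1 ∉ Kf D f := fun h => hFU h.1
    have h3 := OR_iso h2 h1 hp
    have h4 : D.a p = (f, d + 1) := by
      have := congrArg star h3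
      rwa [star_star, star_star] at this
    have h5 : S f (d + 2) = S (D.a p).1 ((D.a p).2 + 1) := by
      rw [h4]
      have h2 : d + 1 + 1 = d + 2 := (by decide : ∀ d : Fin 3, d + 1 + 1 = d + 2) d
      simp only [h2]
    rw [h5, hcU _ (D.second p)] at hcd2
    simp only [hβ, D.sec_second] at hcd2
    exact hcd2

end Pool.Agent.helper82.SC
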